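import Pool.Agent.W618.PC.Desc

set_option linter.all false

open Set Topology Filter

namespace Pool.Agent.W347.PC

open Pool.Agent.W618.PC Pool.Agent.W618.IFS

/-- one step of the change of heights -/
noncomputable def g (k : ℕ) (t : ℝ) : ℝ := cl01 (4 * (t - k)) + cl01 (4 * (t - k) - 3)

noncomputable def GG (M : ℕ) (t : ℝ) : ℝ := ∑ k ∈ Finset.range M, g k t

theorem cl01_one {s : ℝ} (h : 1 ≤ s) : cl01 s = 1 := by
  unfold cl01
  rw [min_eq_right h, max_eq_right zero_le_one]

theorem cl01_zero {s : ℝ} (h : s ≤ 0) : cl01 s = 0 := by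
  unfold cl01
  rw [max_eq_left]
  exact (min_le_left _ _).trans h

theorem g_two {k : ℕ} {t : ℝ} (h : (k : ℝ) + 1 ≤ t) : g k t = 2 := by
  unfold g
  rw [cl01_one (by linarith), cl01_one (by linarith)]
  norm_num

theorem g_zero {k : ℕ} {t : ℝ} (h : t ≤ k) : g k t = 0 := by
  unfold g
  rw [cl01_zero (by linarith), cl01_zero (by linarith)]
  norm_num

theorem g_one {k : ℕ} {t : ℝ} (h : (k : ℝ) + 1 / 4 ≤ t) (h' : t ≤ k + 3 / 4) : g k t = 1 := by
  unfold g
  rw [cl01_one (by linarith), cl01_zero (by linarith)]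
  norm_num

theorem g_mono (k : ℕ) : Monotone (g k) := by
  intro s t hst
  unfold g
  exact add_le_add (cl01_mono (by linarith)) (cl01_mono (by linarith))

theorem g_cont (k : ℕ) : Continuous (g k) := by
  unfold g
  exact (cl01_cont.comp (by fun_prop)).add (cl01_cont.comp (by fun_prop))

theorem g_nonneg (k : ℕ) (t : ℝ) : 0 ≤ g k t := add_nonneg (cl01_mem _).1 (cl01_mem _).1

theorem GG_mono (M : ℕ) : Monotone (GG M) := fun s t hst =>
  Finset.sum_le_sum fun k _ => g_mono k hst

theorem GG_cont (M : ℕ) : Continuous (GG M) := by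
  unfold GG
  exact continuous_finset_sum _ fun k _ => g_cont k

theorem GG_nonneg (M : ℕ) (t : ℝ) : 0 ≤ GG M t := Finset.sum_nonneg fun k _ => g_nonneg k t

theorem GG_big (j : ℕ) {t : ℝ} (h : (j : ℝ) ≤ t) : GG j t = 2 * j := by
  unfold GG
  rw [Finset.sum_congr rfl (g := fun _ => (2 : ℝ))]
  · rw [Finset.sum_const, Finset.card_range, nsmul_eq_mul]; ring
  · intro k hk
    apply g_two
    have : k + 1 ≤ j := Finset.mem_range.mp hk
    have h2 : ((k + 1 : ℕ) : ℝ) ≤ j := by exact_mod_cast this
    push_cast at h2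
    linarith

theorem GG_small {j M : ℕ} (hjM : j ≤ M) {t : ℝ} (h : t ≤ j) : GG M t = GG j t := by
  induction M, hjM using Nat.le_induction with
  | base => rfl
  | succ M hM ih =>
    have h1 : GG (M + 1) t = GG M t + g M t := by
      unfold GG
      rw [Finset.sum_range_succ]
    have h2 : (j : ℝ) ≤ M := by exact_mod_cast hM
    rw [h1, ih, g_zero (h.trans h2), add_zero]

theorem GG_nat {i M : ℕ} (h : i ≤ M) : GG M i = 2 * i := by
  rw [GG_small h le_rfl, GG_big i le_rfl]

theorem GG_mid {j M : ℕ} (h : j < M) {t : ℝ} (h1 : (j : ℝ) + 1 / 4 ≤ t) (h2 : t ≤ j + 3 / 4) :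
    GG M t = 2 * j + 1 := by
  rw [GG_small (j := j + 1) h (by push_cast; linarith)]
  have h3 : GG (j + 1) t = GG j t + g j t := by
    unfold GG
    rw [Finset.sum_range_succ]
  rw [h3, g_one h1 h2, GG_big j (by linarith)]

theorem ins : S_INSERT := by
  classical
  intro X _ hPol M F H l ε hLev hNw hAcc η hη
  have hlow : ∀ c : ℝ, IsClosed (H ∩ l ⁻¹' Iic c) := fun c =>
    hNw.cont.preimage_isClosed_of_isClosed hNw.closed isClosed_Iic
  have hupp : ∀ c : ℝ, IsClosed (H ∩ l ⁻¹' Ici c) := fun c =>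
    hNw.cont.preimage_isClosed_of_isClosed hNw.closed isClosed_Ici
  have hex : ∀ j, j < M → ∃ E : Set X, Fine E ∧ F j ∪ (H ∩ l ⁻¹' Iic ((j : ℝ) + 1 / 4)) ⊆ interior E ∧
      E ⊆ interior (F (j + 1)) \ (H ∩ l ⁻¹' Ici ((j : ℝ) + 3 / 4)) ∧
      ∀ x ∈ E, ∃ z ∈ F j ∪ (H ∩ l ⁻¹' Iic ((j : ℝ) + 1 / 4)),
        JoinedIn (E ∩ Metric.closedBall x η) x z := by
    intro j hj
    apply hPol.2
    · exact (hLev.closed hj.le).union (hlow _)
    · exact isOpen_interior.sdiff (hupp _)
    · rintro x (hx | hx)
      · refine ⟨hLev.step j hj hx, ?_⟩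
        rintro ⟨hxH, hxl⟩
        have h1 : (j : ℝ) + 3 / 4 ≤ l x := hxl
        exact hNw.hi x hxH j hj.le (by linarith) hx
      · have h1 : l x ≤ (j : ℝ) + 1 / 4 := hx.2
        refine ⟨hNw.lo x hx.1 (j + 1) hj (by push_cast; linarith), ?_⟩
        rintro ⟨_, hxl⟩
        have h2 : (j : ℝ) + 3 / 4 ≤ l x := hxl
        linarith
    · exact hη
  choose! E hE1 hE2 hE3 hE4 using hex
  let F' : ℕ → Set X := fun k => if k % 2 = 0 then F (k / 2) else E (k / 2)
  have hFe : ∀ i, F' (2 * i) = F i := by
    intro i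
    have h1 : (2 * i) % 2 = 0 := by omega
    have h2 : (2 * i) / 2 = i := by omega
    simp only [F', if_pos h1, h2]
  have hFo : ∀ i, F' (2 * i + 1) = E i := by
    intro i
    have h1 : ¬ (2 * i + 1) % 2 = 0 := by omega
    have h2 : (2 * i + 1) / 2 = i := by omega
    simp only [F', if_neg h1, h2]
  have hFE : ∀ j, j < M → F j ⊆ interior (E j) := fun j hj =>
    subset_union_left.trans (hE2 j hj)
  refine ⟨F', GG M, ?_, fun i _ => hFe i, GG_mono M, ?_, ?_⟩
  · refine ⟨fun k hk => ?_, fun k hk => ?_, ?_⟩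
    · obtain ⟨i, rfl | rfl⟩ := Nat.even_or_odd' k
      · rw [hFe]; exact hLev.fine i (by omega)
      · rw [hFo]; exact hE1 i (by omega)
    · obtain ⟨i, rfl | rfl⟩ := Nat.even_or_odd' k
      · rw [hFe, hFo]; exact hFE i (by omega)
      · have : 2 * i + 1 + 1 = 2 * (i + 1) := by ring
        rw [this, hFe, hFo]
        intro x hx
        exact (hE3 i (by omega) hx).1
    · rw [hFe]; exact hLev.top
  · refine ⟨hNw.closed, (GG_cont M).comp_continuousOn hNw.cont, fun x _ => GG_nonneg M _, ?_, ?_, ?_⟩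
    · intro x hx k hk hlt
      obtain ⟨i, rfl | rfl⟩ := Nat.even_or_odd' k
      · rw [hFe]
        apply hNw.lo x hx i (by omega)
        by_contra hcon
        push Not at hcon
        have h1 := GG_mono M hcon
        rw [GG_nat (by omega : i ≤ M)] at h1
        push_cast at hlt
        linarith
      · rw [hFo]
        apply hE2 i (by omega)
        right
        refine ⟨hx, ?_⟩
        show l x ≤ (i : ℝ) + 1 / 4
        by_contra hcon
        push Not at hcon
        have h1 := GG_mono M hcon.le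
        rw [GG_mid (by omega : i < M) le_rfl (by linarith)] at h1
        push_cast at hlt
        linarith
    · intro x hx k hk hlt
      obtain ⟨i, rfl | rfl⟩ := Nat.even_or_odd' k
      · rw [hFe]
        apply hNw.hi x hx i (by omega)
        by_contra hcon
        push Not at hcon
        have h1 := GG_mono M hcon
        rw [GG_nat (by omega : i ≤ M)] at h1
        push_cast at hlt
        linarith
      · rw [hFo]
        intro hxE
        apply (hE3 i (by omega) hxE).2
        refine ⟨hx, ?_⟩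
        show (i : ℝ) + 3 / 4 ≤ l x
        by_contra hcon
        push Not at hcon
        have h1 := GG_mono M hcon.le
        rw [GG_mid (by omega : i < M) (by linarith) le_rfl] at h1
        push_cast at hlt
        linarith
    · exact NetOn.comp hNw.net (GG_mono M)
  · have hF0 : F' 0 = F 0 := hFe 0
    intro k hk x hx
    rw [hF0]
    have hε : 0 ≤ ε := by
      obtain ⟨z, _, hz⟩ := hAcc M le_rfl x (by rw [hLev.top]; exact mem_univ x)
      have h1 := hz.source_mem.2
      rw [Metric.mem_closedBall, dist_self] at h1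
      exact h1
    obtain ⟨i, rfl | rfl⟩ := Nat.even_or_odd' k
    · rw [hFe] at hx ⊢
      obtain ⟨z, hz, hj⟩ := hAcc i (by omega) x hx
      exact ⟨z, hz, hj.mono (inter_subset_inter_right _ (Metric.closedBall_subset_closedBall (by linarith)))⟩
    · rw [hFo] at hx ⊢
      obtain ⟨z, hz, hj⟩ := hE4 i (by omega) x hx
      have hj' : JoinedIn (E i ∩ Metric.closedBall x (ε + η)) x z :=
        hj.mono (inter_subset_inter_right _ (Metric.closedBall_subset_closedBall (by linarith)))
      rcases hz with hz | hz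
      · obtain ⟨z', hz', hjj⟩ := hAcc i (by omega) z hz
        refine ⟨z', hz', hj'.trans (hjj.mono ?_)⟩
        apply inter_subset_inter ((hFE i (by omega)).trans interior_subset)
        apply Metric.closedBall_subset_closedBall'
        have h1 : dist z x ≤ η := hj.target_mem.2
        linarith
      · exact ⟨z, Or.inl hz.1, hj'⟩

end Pool.Agent.W347.PC
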