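import Pool.Agent.W618.PC.Desc

set_option linter.all false

open Set Topology Filter

namespace Pool.Agent.W347.PC

open Pool.Agent.W618.PC Pool.Agent.W618.IFS

theorem step (ins : S_INSERT) (add : S_ADD) : S_STEP := by
  classical
  intro X _ _ hPol M F H l ε hLev hNw hAcc hε η hη T
  obtain ⟨F', G, hLev', hF', hG, hNw', hAcc'⟩ := ins X hPol M F H l ε hLev hNw hAcc η hη
  have hfin : ∀ i, i ≤ 2 * M → ∃ T : Finset X, (∀ p ∈ T, p ∈ F' i) ∧
      ∀ x ∈ F' i, ∃ p ∈ T, JoinedIn (F' i ∩ Metric.closedBall x η) x p := fun i hi =>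
    (hLev'.fine i hi).2 η hη
  choose! Ts hTs1 hTs2 using hfin
  obtain ⟨H', l', hNwH, hHH, hll, hTH, hdesc⟩ := add X (2 * M) F' H (fun x => G (l x)) (ε + η)
    hLev' hNw' hAcc' (by linarith) η hη (T ∪ (Finset.range (2 * M + 1)).biUnion Ts)
  have hF0 : F' 0 = F 0 := hF' 0 (Nat.zero_le _)
  refine ⟨F', H', l', G, hLev', hF', hNwH, hHH, hG, hll, fun x hx => ?_, fun i hi x hx => ?_,
    fun x hx => ?_⟩
  · rw [← hF0]
    exact hTH x (Finset.mem_union_left _ hx)
  · obtain ⟨p, hp, hj⟩ := hTs2 i hi x hx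
    refine ⟨p, hTH p (Finset.mem_union_right _ ?_), hj⟩
    exact Finset.mem_biUnion.mpr ⟨i, Finset.mem_range.mpr (by omega), hp⟩
  · obtain ⟨z, hz, hd⟩ := hdesc x hx
    rw [hF0] at hz
    refine ⟨z, hz, hd.mono ?_⟩
    apply inter_subset_inter_right
    apply Metric.closedBall_subset_closedBall
    push_cast
    exact le_rfl

end Pool.Agent.W347.PC
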