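import Pool.Agent.W770.PC.Stms

set_option autoImplicit false

/-! Project PC (helper770): pieces with small `NN` vanish. -/

open MeasureTheory Set Filter Topology
open scoped ENNReal NNReal

namespace Pool.Agent.W347.PC

open Pool.Agent.W770.PC

theorem near (a : ℕ) (u : ℝ) (k k' : ℕ) (h1 : |2 ^ (a + 1) * u - k| < 1)
    (h2 : |2 ^ a * u - k'| < 1) : |2 * (k' : ℤ) - k| ≤ 2 := by
  have h3 : |2 * (k' : ℝ) - k| < 3 := by
    rw [abs_lt] at h1 h2 ⊢
    rw [pow_succ] at h1
    constructor <;> linarith [h1.1, h1.2, h2.1, h2.2]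
  have h4 : |2 * (k' : ℤ) - k| < 3 := by exact_mod_cast h3
  omega

theorem van_thm (h1 : S_gg) : S_van := by
  intro C B ψ F h hA hT t a k hk hC x
  have key : ∀ y : ℝ × ℝ, gg (ph F h t) (a + 1) y * bet (a + 1) k y = 0 := by
    intro y
    by_contra hne
    have hg : gg (ph F h t) (a + 1) y ≠ 0 := left_ne_zero_of_mul hne
    have hb : bet (a + 1) k y ≠ 0 := right_ne_zero_of_mul hne
    unfold gg at hg
    rw [Finset.prod_ne_zero_iff] at hg
    have hN := hg a (Finset.mem_range.2 (Nat.lt_succ_self a))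
    unfold Nf at hN
    obtain ⟨k', hk', hb'⟩ := Finset.exists_ne_zero_of_sum_ne_zero hN
    rw [Finset.mem_filter] at hk'
    obtain ⟨c1, c2⟩ := h1.2.2.1 (a + 1) k y hb
    obtain ⟨c3, c4⟩ := h1.2.2.1 a k' y hb'
    have hd := hT.double t a k hk k' hk'.1 (near a y.1 k.1 k'.1 c1 c3) (near a y.2 k.2 k'.2 c2 c4)
    linarith [hk'.2]
  unfold J
  have : ∀ y : ℝ × ℝ, ψ y * ((gg (ph F h t) (a + 1) y * bet (a + 1) k y : ℝ) : ℂ) *
      ee (ph F h t y + x.1 * y.1 + x.2 * y.2) = 0 := by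
    intro y
    rw [key y]
    simp
  simp only [this, integral_zero]

end Pool.Agent.W347.PC
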